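import Mathlib

namespace Pool.Agent.W_MP_8df6af_co

open Finset

variable {V : Type} [DecidableEq V]

/-- rank of `v` in the stack `S` ordered by `y` -/
noncomputable def rk (y : V → ℝ) (S : Finset V) (v : V) : ℕ := (S.filter (fun w => y w < y v)).card

/-- cyclically near pairs of the stack `S` -/
noncomputable def nearC (y : V → ℝ) (K : ℕ) (S : Finset V) : Finset (V × V) :=
  (S ×ˢ S).filter (fun p => y p.1 < y p.2 ∧
    (rk y S p.2 ≤ rk y S p.1 + K ∨ S.card + rk y S p.1 ≤ rk y S p.2 + K))

lemma mem_nearC {y : V → ℝ} {K : ℕ} {S : Finset V} {p : V × V} :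
    p ∈ nearC y K S ↔ p.1 ∈ S ∧ p.2 ∈ S ∧ y p.1 < y p.2 ∧
    (rk y S p.2 ≤ rk y S p.1 + K ∨ S.card + rk y S p.1 ≤ rk y S p.2 + K) := by
  unfold nearC
  rw [mem_filter, mem_product]
  tauto

lemma rk_lt_rk {y : V → ℝ} {S : Finset V} {u v : V} (hu : u ∈ S) (h : y u < y v) :
    rk y S u < rk y S v := by
  unfold rk
  apply card_lt_card
  rw [ssubset_iff_of_subset]
  · exact ⟨u, by simp [hu, h], by simp⟩
  · intro w hw
    rw [mem_filter] at hw ⊢
    exact ⟨hw.1, hw.2.trans h⟩

lemma rk_lt_card {y : V → ℝ} {S : Finset V} {v : V} (hv : v ∈ S) : rk y S v < S.card := by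
  unfold rk
  apply card_lt_card
  rw [ssubset_iff_of_subset (filter_subset _ _)]
  exact ⟨v, hv, by simp⟩

lemma rk_inj {y : V → ℝ} {S : Finset V} (hy : Set.InjOn y S) {u v : V} (hu : u ∈ S) (hv : v ∈ S)
    (h : rk y S u = rk y S v) : u = v := by
  rcases lt_trichotomy (y u) (y v) with h1 | h1 | h1
  · exact absurd h (rk_lt_rk hu h1).ne
  · exact hy hu hv h1
  · exact absurd h (rk_lt_rk hv h1).ne'

lemma lt_of_rk_lt {y : V → ℝ} {S : Finset V} {u v : V} (hv : v ∈ S)
    (h : rk y S u < rk y S v) : y u < y v := by
  by_contra h1
  push Not at h1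
  rcases h1.lt_or_eq with h2 | h2
  · exact absurd (rk_lt_rk hv h2) (by omega)
  · have : rk y S u = rk y S v := by unfold rk; rw [h2]
    omega

lemma rk_erase {y : V → ℝ} {S : Finset V} {v : V} (hv : v ∈ S) (w : V) :
    rk y S w = rk y (S.erase v) w + (if y v < y w then 1 else 0) := by
  unfold rk
  rw [filter_erase]
  split_ifs with h
  · rw [card_erase_add_one]
    simp [hv, h]
  · rw [erase_eq_of_notMem]
    · rfl
    · simp [h]

/-- removing a bar: near pairs of `S` avoiding `v` stay near -/
lemma nearC_subset_erase {y : V → ℝ} {K : ℕ} {S : Finset V} {v : V} (hv : v ∈ S)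
    {p : V × V} (hp : p ∈ nearC y K S) (h1 : p.1 ≠ v) (h2 : p.2 ≠ v) :
    p ∈ nearC y K (S.erase v) := by
  rw [mem_nearC] at hp ⊢
  obtain ⟨ha, hb, hlt, hn⟩ := hp
  refine ⟨mem_erase.2 ⟨h1, ha⟩, mem_erase.2 ⟨h2, hb⟩, hlt, ?_⟩
  have e1 := rk_erase (y := y) hv p.1
  have e2 := rk_erase (y := y) hv p.2
  have e3 := card_erase_add_one hv
  have h12 : y v < y p.1 → y v < y p.2 := fun h => h.trans hlt
  split_ifs at e1 e2 <;> first | omega | (exfalso; tauto)

/-- the rank pairs -/
noncomputable def rkp (y : V → ℝ) (S : Finset V) (p : V × V) : ℕ × ℕ := (rk y S p.1, rk y S p.2)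

lemma rkp_inj {y : V → ℝ} {S : Finset V} (hy : Set.InjOn y S) :
    Set.InjOn (rkp y S) ((S ×ˢ S : Finset (V × V)) : Set (V × V)) := by
  rintro ⟨a, b⟩ h1 ⟨c, d⟩ h2 h
  simp only [coe_product, Set.mem_prod, mem_coe] at h1 h2
  simp only [rkp, Prod.mk.injEq] at h
  rw [rk_inj hy h1.1 h2.1 h.1, rk_inj hy h1.2 h2.2 h.2]

/-- deletion: at most `K` new near pairs -/
lemma card_new_le {y : V → ℝ} {K : ℕ} {S : Finset V} {v : V} (hy : Set.InjOn y S) (hv : v ∈ S) :
    (nearC y K (S.erase v) \ nearC y K S).card ≤ K := by
  classical
  set L := S.card with hL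
  set r := rk y S v with hr
  by_cases hKL : L ≤ 2 * K + 1
  · -- no new pairs at all
    have : nearC y K (S.erase v) \ nearC y K S = ∅ := by
      rw [sdiff_eq_empty_iff_subset]
      intro p hp
      rw [mem_nearC] at hp ⊢
      obtain ⟨ha, hb, hlt, hn⟩ := hp
      rw [mem_erase] at ha hb
      refine ⟨ha.2, hb.2, hlt, ?_⟩
      have := rk_lt_rk ha.2 hlt
      have := rk_lt_card (y := y) hb.2
      omega
    rw [this]; simp
  · push Not at hKL
    set f : ℕ → ℕ × ℕ := fun s =>
      if r + s ≤ K then (r + s, r + s + L - K - 1)
      else if L ≤ r + s then (r + s - L, r + s - K - 1)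
      else (r + s - K - 1, r + s) with hf
    calc (nearC y K (S.erase v) \ nearC y K S).card
        = ((nearC y K (S.erase v) \ nearC y K S).image (rkp y S)).card := by
          rw [card_image_of_injOn]
          apply (rkp_inj hy).mono
          intro p hp
          simp only [coe_sdiff, Set.mem_diff, mem_coe, mem_nearC, mem_erase] at hp
          simp only [coe_product, Set.mem_prod, mem_coe]
          exact ⟨hp.1.1.2, hp.1.2.1.2⟩
      _ ≤ ((Finset.Icc 1 K).image f).card := by
          apply card_le_card
          intro q hq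
          rw [mem_image] at hq
          obtain ⟨p, hp, rfl⟩ := hq
          rw [mem_sdiff] at hp
          obtain ⟨hp1, hp2⟩ := hp
          rw [mem_nearC] at hp1 hp2
          obtain ⟨ha, hb, hlt, hn⟩ := hp1
          rw [mem_erase] at ha hb
          have e1 := rk_erase (y := y) hv p.1
          have e2 := rk_erase (y := y) hv p.2
          have e3 := card_erase_add_one hv
          have l1 := rk_lt_rk ha.2 hlt
          have l2 := rk_lt_card (y := y) hb.2
          have l3 := rk_lt_card (y := y) hv
          have n1 : rk y S p.1 ≠ r := fun h => ha.1 (rk_inj hy ha.2 hv h)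
          have n2 : rk y S p.2 ≠ r := fun h => hb.1 (rk_inj hy hb.2 hv h)
          have hp3 : ¬ (rk y S p.2 ≤ rk y S p.1 + K ∨ S.card + rk y S p.1 ≤ rk y S p.2 + K) := by
            intro h; exact hp2 ⟨ha.2, hb.2, hlt, h⟩
          have c1 : y v < y p.1 ↔ r < rk y S p.1 :=
            ⟨fun h => rk_lt_rk hv h, fun h => lt_of_rk_lt ha.2 h⟩
          have c2 : y v < y p.2 ↔ r < rk y S p.2 :=
            ⟨fun h => rk_lt_rk hv h, fun h => lt_of_rk_lt hb.2 h⟩
          rw [← hL] at *
          rw [mem_image]
          simp only [rkp]
          generalize hi : rk y S p.1 = i at *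
          generalize hj : rk y S p.2 = j at *
          generalize rk y (S.erase v) p.1 = i' at *
          generalize rk y (S.erase v) p.2 = j' at *
          simp only [c1] at e1
          simp only [c2] at e2
          by_cases t1 : r < i
          · refine ⟨i - r, ?_, ?_⟩
            · rw [if_pos t1] at e1
              rw [if_pos (by omega)] at e2
              rw [mem_Icc]; omega
            · rw [if_pos t1] at e1
              rw [if_pos (by omega)] at e2
              simp only [hf]
              rw [if_pos (by omega)]
              simp only [Prod.mk.injEq]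
              omega
          · rw [if_neg t1] at e1
            by_cases t2 : r < j
            · rw [if_pos t2] at e2
              refine ⟨j - r, ?_, ?_⟩
              · rw [mem_Icc]; omega
              · simp only [hf]
                rw [if_neg (by omega), if_neg (by omega)]
                simp only [Prod.mk.injEq]
                omega
            · rw [if_neg t2] at e2
              refine ⟨i + L - r, ?_, ?_⟩
              · rw [mem_Icc]; omega
              · simp only [hf]
                rw [if_neg (by omega), if_pos (by omega)]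
                simp only [Prod.mk.injEq]
                omega
      _ ≤ (Finset.Icc 1 K).card := card_image_le
      _ = K := by simp

lemma nearC_erase_subset {y : V → ℝ} {K : ℕ} {S : Finset V} {v : V} (hKL : S.card ≤ 2 * K + 1) :
    nearC y K (S.erase v) ⊆ nearC y K S := by
  intro p hp
  rw [mem_nearC] at hp ⊢
  obtain ⟨ha, hb, hlt, hn⟩ := hp
  rw [mem_erase] at ha hb
  refine ⟨ha.2, hb.2, hlt, ?_⟩
  have := rk_lt_rk ha.2 hlt
  have := rk_lt_card (y := y) hb.2
  omega

/-- insertion (seen from the larger stack): pairs containing `v` -/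
lemma card_with_le_card {y : V → ℝ} {K : ℕ} {S : Finset V} {v : V} (hv : v ∈ S) :
    ((nearC y K S).filter (fun p => p.1 = v ∨ p.2 = v)).card ≤ S.card - 1 := by
  rw [← card_erase_of_mem hv]
  apply card_le_card_of_injOn (fun p => if p.1 = v then p.2 else p.1)
  · intro p hp
    simp only [coe_filter, Set.mem_setOf_eq, mem_nearC] at hp
    obtain ⟨⟨h1, h2, h3, h4⟩, h5⟩ := hp
    simp only [coe_erase, Set.mem_diff, mem_coe, Set.mem_singleton_iff]
    split_ifs with h
    · refine ⟨h2, ?_⟩
      intro h6; rw [h, h6] at h3; exact lt_irrefl _ h3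
    · exact ⟨h1, h⟩
  · intro p hp q hq h
    simp only [coe_filter, Set.mem_setOf_eq, mem_nearC] at hp hq
    obtain ⟨⟨h1, h2, h3, h4⟩, h5⟩ := hp
    obtain ⟨⟨g1, g2, g3, g4⟩, g5⟩ := hq
    obtain ⟨a, b⟩ := p
    obtain ⟨c, d⟩ := q
    simp only at *
    split_ifs at h with i1 i2 i2
    · subst i1; subst i2; simp [h]
    · subst i1
      have : d = a := by tauto
      subst this; subst h
      exact absurd h3 (not_lt.2 g3.le)
    · subst i2
      have : b = c := by tauto
      subst this; subst h
      exact absurd h3 (not_lt.2 g3.le)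
    · have e1 : b = v := by tauto
      have e2 : d = v := by tauto
      simp [h, e1, e2]

lemma card_with_le {y : V → ℝ} {K : ℕ} {S : Finset V} {v : V} (hy : Set.InjOn y S) (hv : v ∈ S) :
    ((nearC y K S).filter (fun p => p.1 = v ∨ p.2 = v)).card ≤ 2 * K := by
  classical
  by_cases hK : S.card ≤ 2 * K + 1
  · exact (card_with_le_card hv).trans (by omega)
  push Not at hK
  set L := S.card with hL
  set r := rk y S v with hr
  set up : ℕ → ℕ := fun s => if r + s < L then r + s else r + s - L with hup
  set dn : ℕ → ℕ := fun s => if s ≤ r then r - s else r + L - s with hdn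
  calc ((nearC y K S).filter (fun p => p.1 = v ∨ p.2 = v)).card
      ≤ ((Finset.Icc 1 K).image up ∪ (Finset.Icc 1 K).image dn).card := by
        apply card_le_card_of_injOn (fun p => if p.1 = v then rk y S p.2 else rk y S p.1)
        · intro p hp
          simp only [coe_filter, Set.mem_setOf_eq, mem_nearC] at hp
          obtain ⟨⟨h1, h2, h3, h4⟩, h5⟩ := hp
          have l1 := rk_lt_rk h1 h3
          have l2 := rk_lt_card (y := y) h2
          simp only [coe_union, coe_image, Set.mem_union, Set.mem_image, coe_Icc, Set.mem_Icc]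
          rw [← hL] at *
          split_ifs with h
          · rw [h] at h4 l1
            rw [← hr] at h4 l1
            generalize rk y S p.2 = j at *
            rcases h4 with h4 | h4
            · left; refine ⟨j - r, by omega, ?_⟩
              simp only [hup]; rw [if_pos (by omega)]; omega
            · right; refine ⟨r + L - j, by omega, ?_⟩
              simp only [hdn]; rw [if_neg (by omega)]; omega
          · have h6 : p.2 = v := by tauto
            rw [h6] at h4 l1 l2
            rw [← hr] at h4 l1 l2
            generalize rk y S p.1 = j at *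
            rcases h4 with h4 | h4
            · right; refine ⟨r - j, by omega, ?_⟩
              simp only [hdn]; rw [if_pos (by omega)]; omega
            · left; refine ⟨j + L - r, by omega, ?_⟩
              simp only [hup]; rw [if_neg (by omega)]; omega
        · intro p hp q hq h
          simp only [coe_filter, Set.mem_setOf_eq, mem_nearC] at hp hq
          obtain ⟨⟨h1, h2, h3, h4⟩, h5⟩ := hp
          obtain ⟨⟨g1, g2, g3, g4⟩, g5⟩ := hq
          obtain ⟨a, b⟩ := p
          obtain ⟨c, d⟩ := q
          simp only at *
          split_ifs at h with i1 i2 i2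
          · subst i1; subst i2; rw [rk_inj hy h2 g2 h]
          · subst i1
            have : d = a := by tauto
            subst this
            have := rk_inj hy h2 g1 h
            subst this
            exact absurd h3 (not_lt.2 g3.le)
          · subst i2
            have : b = c := by tauto
            subst this
            have := rk_inj hy h1 g2 h
            subst this
            exact absurd h3 (not_lt.2 g3.le)
          · have e1 : b = v := by tauto
            have e2 : d = v := by tauto
            rw [rk_inj hy h1 g1 h, e1, e2]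
    _ ≤ ((Finset.Icc 1 K).image up).card + ((Finset.Icc 1 K).image dn).card := card_union_le _ _
    _ ≤ K + K := by
        apply Nat.add_le_add
        · exact card_image_le.trans (by simp)
        · exact card_image_le.trans (by simp)
    _ = 2 * K := by ring

/-- `Reach y K S i d H`: the stack `S` is reached after `i` insertions and `d` deletions, and `H` is
the set of all pairs which were cyclically near in some stack on the way. -/
inductive Reach (y : V → ℝ) (K : ℕ) : Finset V → ℕ → ℕ → Finset (V × V) → Prop
  | nil : Reach y K ∅ 0 0 ∅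
  | ins {S : Finset V} {i d : ℕ} {H : Finset (V × V)} {v : V} (h : Reach y K S i d H)
      (hv : v ∉ S) (hy : Set.InjOn y (insert v S : Finset V)) :
      Reach y K (insert v S) (i + 1) d (H ∪ nearC y K (insert v S))
  | del {S : Finset V} {i d : ℕ} {H : Finset (V × V)} {v : V} (h : Reach y K S i d H)
      (hv : v ∈ S) : Reach y K (S.erase v) i (d + 1) (H ∪ nearC y K (S.erase v))

lemma Reach.inv {y : V → ℝ} {K : ℕ} {S : Finset V} {i d : ℕ} {H : Finset (V × V)}
    (h : Reach y K S i d H) : S.card + d = i ∧ nearC y K S ⊆ H ∧ Set.InjOn y S ∧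
    ((S.card ≤ 2 * K ∧
      (2 * H.card + S.card * (4 * K + 1 - S.card) + 2 * d : ℤ) ≤ 4 * K * i) ∨
     (H.card + K * (2 * K + 1) + K * (2 * K + 1 - S.card : ℕ) ≤ 2 * K * i + K * d)) := by
  induction h with
  | nil => 
    refine ⟨by simp, by simp [nearC], by simp, Or.inl ⟨by simp, by simp⟩⟩
  | @ins S i d H v h hv hy ih =>
    obtain ⟨h1, h2, h3, h4⟩ := ih
    have hc : (insert v S).card = S.card + 1 := card_insert_of_notMem hv
    have he : (insert v S).erase v = S := erase_insert hv
    have hmem : v ∈ insert v S := mem_insert_self v S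
    refine ⟨by omega, subset_union_right, hy, ?_⟩
    -- bound for the union
    have key : H ∪ nearC y K (insert v S) ⊆
        H ∪ (nearC y K (insert v S)).filter (fun p => p.1 = v ∨ p.2 = v) := by
      intro p hp
      rw [mem_union] at hp ⊢
      rcases hp with hp | hp
      · exact Or.inl hp
      · by_cases hpv : p.1 = v ∨ p.2 = v
        · right; rw [mem_filter]; exact ⟨hp, hpv⟩
        · left; push Not at hpv
          apply h2
          have := nearC_subset_erase hmem hp hpv.1 hpv.2
          rwa [he] at this
    have b0 := (card_le_card key).trans (card_union_le _ _)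
    have b1 := card_with_le (K := K) hy hmem
    have b2 := card_with_le_card (K := K) (y := y) hmem
    rw [hc] at b2 ⊢
    simp only [Nat.add_sub_cancel] at b2
    generalize (nearC y K (insert v S)).filter (fun p => p.1 = v ∨ p.2 = v) = F at *
    generalize (H ∪ nearC y K (insert v S)) = H' at *
    rcases h4 with ⟨h5, h6⟩ | h6
    · rcases h5.lt_or_eq with h7 | h7
      · left
        refine ⟨by omega, ?_⟩
        have b3 : (H'.card : ℤ) ≤ H.card + S.card := by exact_mod_cast b0.trans (by omega)
        push_cast
        have h7' : (S.card : ℤ) + 1 ≤ 2 * K := by exact_mod_cast h7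
        nlinarith
      · right
        have b3 : H'.card ≤ H.card + 2 * K := b0.trans (by omega)
        rw [h7] at h6 ⊢
        simp only [Nat.sub_self, Nat.mul_zero, Nat.add_zero]
        have b4 : (H'.card : ℤ) ≤ H.card + 2 * K := by exact_mod_cast b3
        have : (H'.card + K * (2 * K + 1) : ℤ) ≤ 2 * K * (i + 1) + K * d := by
          push_cast at h6
          have h8 : (2 * (H.card : ℤ) + 2 * K * (4 * K + 1 - 2 * K) + 2 * d) ≤ 4 * K * i := h6
          have hd : (0 : ℤ) ≤ K * d := by positivity
          nlinarith
        exact_mod_cast this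
    · right
      rcases le_or_gt S.card (2 * K) with h7 | h7
      · have e1 : 2 * K + 1 - S.card = (2 * K + 1 - (S.card + 1)) + 1 := by omega
        rw [e1] at h6
        generalize 2 * K + 1 - (S.card + 1) = x at *
        have b3 : H'.card ≤ H.card + 2 * K := b0.trans (by omega)
        nlinarith
      · have e1 : 2 * K + 1 - S.card = 0 := by omega
        have e2 : 2 * K + 1 - (S.card + 1) = 0 := by omega
        rw [e1] at h6
        rw [e2]
        have b3 : H'.card ≤ H.card + 2 * K := b0.trans (by omega)
        nlinarith
  | @del S i d H v h hv ih =>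
    obtain ⟨h1, h2, h3, h4⟩ := ih
    have hc : (S.erase v).card + 1 = S.card := card_erase_add_one hv
    refine ⟨by omega, subset_union_right, h3.mono (by simp [Set.diff_subset]), ?_⟩
    have key : H ∪ nearC y K (S.erase v) ⊆ H ∪ (nearC y K (S.erase v) \ nearC y K S) := by
      intro p hp
      rw [mem_union] at hp ⊢
      rcases hp with hp | hp
      · exact Or.inl hp
      · by_cases hpv : p ∈ nearC y K S
        · exact Or.inl (h2 hpv)
        · right; rw [mem_sdiff]; exact ⟨hp, hpv⟩
    have b0 := (card_le_card key).trans (card_union_le _ _)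
    have b1 := card_new_le (K := K) h3 hv
    have b2 : S.card ≤ 2 * K + 1 → (nearC y K (S.erase v) \ nearC y K S).card = 0 := by
      intro h5
      rw [card_eq_zero, sdiff_eq_empty_iff_subset]
      exact nearC_erase_subset h5
    generalize (nearC y K (S.erase v) \ nearC y K S) = F at *
    generalize (H ∪ nearC y K (S.erase v)) = H' at *
    generalize (S.erase v).card = c at *
    rw [← hc] at h4 b2
    rcases h4 with ⟨h5, h6⟩ | h6
    · left
      refine ⟨by omega, ?_⟩
      have b3 : (H'.card : ℤ) ≤ H.card := by exact_mod_cast b0.trans (by rw [b2 (by omega)]; simp)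
      push_cast at h6 ⊢
      have h7' : (c : ℤ) + 1 ≤ 2 * K := by exact_mod_cast h5
      nlinarith
    · right
      rcases le_or_gt (c + 1) (2 * K + 1) with h7 | h7
      · have e1 : 2 * K + 1 - c = (2 * K + 1 - (c + 1)) + 1 := by omega
        rw [e1]
        generalize 2 * K + 1 - (c + 1) = x at *
        have b3 : H'.card ≤ H.card := b0.trans (by rw [b2 (by omega)]; simp)
        nlinarith
      · have e1 : 2 * K + 1 - c = 0 := by omega
        have e2 : 2 * K + 1 - (c + 1) = 0 := by omega
        rw [e2] at h6
        rw [e1]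
        have b3 : H'.card ≤ H.card + K := b0.trans (by omega)
        nlinarith

/-- The final estimate. -/
lemma Reach.final {y : V → ℝ} {K n : ℕ} {H : Finset (V × V)} (hn : 4 * K ≤ n)
    (h : Reach y K ∅ n n H) : H.card + K * (4 * K + 2) ≤ 3 * K * n := by
  obtain ⟨-, -, -, h4⟩ := h.inv
  rcases h4 with ⟨-, h6⟩ | h6
  · simp only [card_empty, Nat.cast_zero, zero_mul, add_zero] at h6
    have : (2 * H.card + 2 * n : ℤ) ≤ 4 * K * n := h6
    have h7 : (4 * K : ℤ) ≤ n := by exact_mod_cast hn
    have : (H.card + K * (4 * K + 2) : ℤ) ≤ 3 * K * n := by nlinarith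
    exact_mod_cast this
  · simp only [card_empty] at h6
    simp only [Nat.sub_zero] at h6
    nlinarith

end Pool.Agent.W_MP_8df6af_co
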