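import Mathlib

/-!
Bar `k`-visibility representations and graphs.
-/

namespace Pool.Agent.W_MP_8df6af_co

/-- The closed horizontal segment with end points `(a, h)` and `(b, h)`. -/
def hseg (a b h : ℝ) : Set (ℝ × ℝ) := Set.Icc a b ×ˢ {h}

/-- A family of pairwise disjoint bars (non-degenerate closed horizontal segments) indexed by `V`:
the bar of `v` is the segment from `(l v, y v)` to `(r v, y v)`. -/
structure BarFamily (V : Type) where
  l : V → ℝ
  r : V → ℝ
  y : V → ℝ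
  l_lt_r : ∀ v, l v < r v
  disjoint : ∀ u v, u ≠ v → Disjoint (hseg (l u) (r u) (y u)) (hseg (l v) (r v) (y v))

/-- The bar of `v`. -/
def BarFamily.bar {V : Type} (R : BarFamily V) (v : V) : Set (ℝ × ℝ) :=
  hseg (R.l v) (R.r v) (R.y v)

/-- `u` and `v` see each other through at most `k` bars: there is a non-degenerate axis-parallel
rectangle `[x₁, x₂] × [y₁, y₂]` with one horizontal side contained in the bar of `u`, the other one
contained in the bar of `v`, which intersects at most `k` bars other than those of `u`, `v`. -/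
def Sees {V : Type} (k : ℕ) (R : BarFamily V) (u v : V) : Prop :=
  ∃ x₁ x₂ y₁ y₂ : ℝ, x₁ < x₂ ∧ y₁ < y₂ ∧
    ((hseg x₁ x₂ y₁ ⊆ R.bar u ∧ hseg x₁ x₂ y₂ ⊆ R.bar v) ∨
      (hseg x₁ x₂ y₁ ⊆ R.bar v ∧ hseg x₁ x₂ y₂ ⊆ R.bar u)) ∧
    {w : V | w ≠ u ∧ w ≠ v ∧
      (R.bar w ∩ (Set.Icc x₁ x₂ ×ˢ Set.Icc y₁ y₂)).Nonempty}.encard ≤ k

/-- `G` is a bar `k`-visibility graph: it has a bar `k`-visibility representation. -/
def IsBarVisibilityGraph {V : Type} (k : ℕ) (G : SimpleGraph V) : Prop :=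
  ∃ R : BarFamily V, ∀ u v, u ≠ v → (G.Adj u v ↔ Sees k R u v)

end Pool.Agent.W_MP_8df6af_co
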