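import Mathlib
import Pool.Agent.W_MP_8df6af_co.Defs

namespace Pool.Agent.W_MP_8df6af_co

open Finset

/-- left coordinates of the extremal family -/
def lc (N K i : ℕ) : ℤ :=
  if i < K then (i : ℤ) - 2 * N
  else if i < 2 * K then -(3 * N)
  else if i + K < N then (i : ℤ) - N
  else -(i : ℤ) - N

/-- right coordinates of the extremal family -/
def rc (N K i : ℕ) : ℤ :=
  if i < K then 2 * ((N : ℤ) + K - i)
  else if i < 2 * K then 2 * (2 * (K : ℤ) - i)
  else if i + K < N then 2 * (i : ℤ)
  else 2 * ((i : ℤ) + K + 1)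

lemma lc_neg {N K i : ℕ} (hK : 1 ≤ K) (hN : 4 * K ≤ N) (hi : i < N) : lc N K i < 0 := by
  unfold lc
  split_ifs <;> omega

lemma rc_pos {N K i : ℕ} (hK : 1 ≤ K) (hi : i < N) : 0 < rc N K i := by
  unfold rc
  split_ifs <;> omega

/-- the extremal family, restricted to the lowest `n` bars -/
def fam (N K n : ℕ) (hK : 1 ≤ K) (hN : 4 * K ≤ N) (hn : n ≤ N) : BarFamily (Fin n) where
  l v := (lc N K v : ℤ)
  r v := (rc N K v : ℤ)
  y v := ((v : ℕ) : ℝ)
  l_lt_r v := by
    have h1 := lc_neg hK hN (lt_of_lt_of_le v.2 hn)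
    have h2 := rc_pos hK (lt_of_lt_of_le v.2 hn)
    exact_mod_cast h1.trans h2
  disjoint u v huv := by
    rw [Set.disjoint_left]
    rintro ⟨x, y⟩ h1 h2
    unfold hseg at h1 h2
    simp only [Set.mem_prod, Set.mem_singleton_iff] at h1 h2
    have h3 := h1.2.symm.trans h2.2
    exact huv (Fin.ext (by exact_mod_cast h3))

lemma encard_le_of_interval {n : ℕ} (S : Set (Fin n)) (a b k : ℕ)
    (h : ∀ w ∈ S, a ≤ (w : ℕ) ∧ (w : ℕ) < b) (hk : b ≤ a + k) : S.encard ≤ k := by
  classical
  have h1 : S.toFinset.card ≤ k := by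
    calc S.toFinset.card ≤ (Finset.Ico a b).card := by
          apply card_le_card_of_injOn (fun w : Fin n => (w : ℕ))
          · intro w hw
            rw [mem_coe, Set.mem_toFinset] at hw
            rw [mem_coe, mem_Ico]
            exact h w hw
          · intro u _ v _ huv
            exact Fin.ext huv
      _ ≤ k := by rw [Nat.card_Ico]; omega
  rw [← Set.coe_toFinset S, Set.encard_coe_eq_coe_finsetCard]
  exact_mod_cast h1

lemma sees_of {N K n k : ℕ} (hK : 1 ≤ K) (hN : 4 * K ≤ N) (hn : n ≤ N) (i j : Fin n)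
    (hij : i < j) (m : ℤ) (hi : lc N K i ≤ m) (hj : lc N K j ≤ m)
    (hi' : m + 1 ≤ rc N K i) (hj' : m + 1 ≤ rc N K j) (a b : ℕ)
    (hblock : ∀ w : Fin n, i < w → w < j → lc N K w ≤ m → m ≤ rc N K w →
      a ≤ (w : ℕ) ∧ (w : ℕ) < b) (hk : b ≤ a + k) :
    Sees k (fam N K n hK hN hn) i j := by
  refine ⟨m, m + 1 / 2, ((i : ℕ) : ℝ), ((j : ℕ) : ℝ), by linarith, by exact_mod_cast hij,
    Or.inl ⟨?_, ?_⟩, ?_⟩
  · rintro ⟨x, y⟩ ⟨⟨h1, h2⟩, h3⟩
    simp only [Set.mem_singleton_iff] at h3
    refine ⟨⟨?_, ?_⟩, h3⟩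
    · show ((lc N K i : ℤ) : ℝ) ≤ x
      have : ((lc N K i : ℤ) : ℝ) ≤ m := by exact_mod_cast hi
      simp only at h1
      linarith
    · show x ≤ ((rc N K i : ℤ) : ℝ)
      have : (m : ℝ) + 1 ≤ ((rc N K i : ℤ) : ℝ) := by exact_mod_cast hi'
      simp only at h2
      linarith
  · rintro ⟨x, y⟩ ⟨⟨h1, h2⟩, h3⟩
    simp only [Set.mem_singleton_iff] at h3
    refine ⟨⟨?_, ?_⟩, h3⟩
    · show ((lc N K j : ℤ) : ℝ) ≤ x
      have : ((lc N K j : ℤ) : ℝ) ≤ m := by exact_mod_cast hj
      simp only at h1
      linarith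
    · show x ≤ ((rc N K j : ℤ) : ℝ)
      have : (m : ℝ) + 1 ≤ ((rc N K j : ℤ) : ℝ) := by exact_mod_cast hj'
      simp only at h2
      linarith
  · apply encard_le_of_interval _ a b k _ hk
    rintro w ⟨hw1, hw2, ⟨⟨x, y⟩, ⟨⟨h1, h2⟩, h3⟩, ⟨h4, h5⟩, h6, h7⟩⟩
    simp only [Set.mem_singleton_iff] at h1 h2 h3 h4 h5 h6 h7
    have h1' : ((lc N K w : ℤ) : ℝ) ≤ x := h1
    have h2' : x ≤ ((rc N K w : ℤ) : ℝ) := h2
    have h3' : y = ((w : ℕ) : ℝ) := h3
    subst h3'
    have h6' : (i : ℕ) ≤ (w : ℕ) := by exact_mod_cast h6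
    have h7' : (w : ℕ) ≤ (j : ℕ) := by exact_mod_cast h7
    apply hblock w
    · exact lt_of_le_of_ne h6' (fun h => hw1 h.symm)
    · exact lt_of_le_of_ne h7' hw2
    · have : ((lc N K w : ℤ) : ℝ) < ((m + 1 : ℤ) : ℝ) := by push_cast; linarith
      have : lc N K w < m + 1 := by exact_mod_cast this
      omega
    · have : ((m : ℤ) : ℝ) ≤ ((rc N K w : ℤ) : ℝ) := by linarith
      exact_mod_cast this

/-- All pairs which are visible in the extremal family. -/
def Q (N K i j : ℕ) : Prop := j ≤ i + K ∨ N ≤ j + K ∨ i < K ∨ (i < 2 * K ∧ j < 3 * K)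

lemma sees_of_Q {N n k : ℕ} (hN : 4 * (k + 1) ≤ N) (hn : n ≤ N) (i j : Fin n)
    (hij : i < j) (hQ : Q N (k + 1) i j) :
    Sees k (fam N (k + 1) n (by omega) hN hn) i j := by
  have hij' : (i : ℕ) < (j : ℕ) := hij
  have hjN : (j : ℕ) < N := lt_of_lt_of_le j.2 hn
  set K := k + 1 with hKdef
  have hK : 1 ≤ K := by omega
  by_cases h1 : (j : ℕ) ≤ i + K
  · -- near pairs
    apply sees_of hK hN hn i j hij 0 (lc_neg hK hN (by omega)).le (lc_neg hK hN (by omega)).le
      (rc_pos hK (by omega)) (rc_pos hK (by omega)) (i + 1) j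
    · intro w h2 h3 _ _
      exact ⟨h2, h3⟩
    · omega
  by_cases h2 : N ≤ (j : ℕ) + K
  · by_cases h3 : (i : ℕ) < K
    · -- W, U
      by_cases h4 : rc N K j ≤ rc N K i
      · apply sees_of hK hN hn i j hij (rc N K j - 1) _ _ _ _ (i + 1) K
        · intro w h5 h6 h7 h8
          have h5' : (i : ℕ) < (w : ℕ) := h5
          have h6' : (w : ℕ) < (j : ℕ) := h6
          unfold rc at h4 h8
          split_ifs at h4 h8 <;> omega
        · omega
        · unfold lc rc; split_ifs <;> omega
        · unfold lc rc; split_ifs <;> omega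
        · omega
        · omega
      · apply sees_of hK hN hn i j hij (rc N K i - 1) _ _ _ _ (N - K) j
        · intro w h5 h6 h7 h8
          have h5' : (i : ℕ) < (w : ℕ) := h5
          have h6' : (w : ℕ) < (j : ℕ) := h6
          unfold rc at h4 h8
          split_ifs at h4 h8 <;> omega
        · omega
        · unfold lc rc; split_ifs <;> omega
        · unfold lc rc; split_ifs <;> omega
        · omega
        · omega
    · by_cases h4 : (i : ℕ) < 2 * K
      · -- M'', U
        apply sees_of hK hN hn i j hij (lc N K j) _ _ _ _ (i + 1) (2 * K)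
        · intro w h5 h6 h7 h8
          have h5' : (i : ℕ) < (w : ℕ) := h5
          have h6' : (w : ℕ) < (j : ℕ) := h6
          unfold lc at h7
          split_ifs at h7 <;> omega
        · omega
        · unfold lc; split_ifs <;> omega
        · exact le_refl _
        · unfold lc rc; split_ifs <;> omega
        · unfold lc rc; split_ifs <;> omega
      · -- M+, U
        apply sees_of hK hN hn i j hij (lc N K i) _ _ _ _ (N - K) j
        · intro w h5 h6 h7 h8
          have h5' : (i : ℕ) < (w : ℕ) := h5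
          have h6' : (w : ℕ) < (j : ℕ) := h6
          unfold lc at h7
          split_ifs at h7 <;> omega
        · omega
        · exact le_refl _
        · unfold lc; split_ifs <;> omega
        · unfold lc rc; split_ifs <;> omega
        · unfold lc rc; split_ifs <;> omega
  · by_cases h3 : (i : ℕ) < K
    · by_cases h4 : (j : ℕ) < 2 * K
      · -- W, M''
        apply sees_of hK hN hn i j hij (lc N K i) _ _ _ _ K j
        · intro w h5 h6 h7 h8
          have h5' : (i : ℕ) < (w : ℕ) := h5
          have h6' : (w : ℕ) < (j : ℕ) := h6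
          unfold lc at h7
          split_ifs at h7 <;> omega
        · omega
        · exact le_refl _
        · unfold lc; split_ifs <;> omega
        · unfold lc rc; split_ifs <;> omega
        · unfold lc rc; split_ifs <;> omega
      · -- W, M+
        apply sees_of hK hN hn i j hij (rc N K j - 1) _ _ _ _ (i + 1) K
        · intro w h5 h6 h7 h8
          have h5' : (i : ℕ) < (w : ℕ) := h5
          have h6' : (w : ℕ) < (j : ℕ) := h6
          unfold rc at h8
          split_ifs at h8 <;> omega
        · omega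
        · unfold lc rc; split_ifs <;> omega
        · unfold lc rc; split_ifs <;> omega
        · unfold rc; split_ifs <;> omega
        · omega
    · -- M'', M'
      have h4 : (i : ℕ) < 2 * K ∧ (j : ℕ) < 3 * K := by
        unfold Q at hQ
        tauto
      apply sees_of hK hN hn i j hij (rc N K i - 1) _ _ _ _ (2 * K) j
      · intro w h5 h6 h7 h8
        have h5' : (i : ℕ) < (w : ℕ) := h5
        have h6' : (w : ℕ) < (j : ℕ) := h6
        unfold rc at h8
        split_ifs at h8 <;> omega
      · omega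
      · unfold lc rc; split_ifs <;> omega
      · unfold lc rc; split_ifs <;> omega
      · omega
      · unfold rc; split_ifs <;> omega

lemma Sees.symm {V : Type} {k : ℕ} {R : BarFamily V} {u v : V} (h : Sees k R u v) :
    Sees k R v u := by
  obtain ⟨x₁, x₂, y₁, y₂, hx, hy, hor, hk⟩ := h
  refine ⟨x₁, x₂, y₁, y₂, hx, hy, hor.symm, ?_⟩
  convert hk using 4
  tauto

/-- The visibility graph of a family of bars. -/
def visGraph {V : Type} (k : ℕ) (R : BarFamily V) : SimpleGraph V where
  Adj u v := u ≠ v ∧ Sees k R u v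
  symm := ⟨fun _ _ h => ⟨h.1.symm, h.2.symm⟩⟩
  loopless := ⟨fun _ h => h.1 rfl⟩

lemma isBar_visGraph {V : Type} (k : ℕ) (R : BarFamily V) : IsBarVisibilityGraph k (visGraph k R) :=
  ⟨R, fun u v huv => ⟨fun h => h.2, fun h => ⟨huv, h⟩⟩⟩

/-- number of lower partners of `j` -/
def g (N K j : ℕ) : ℕ := if j < 3 * K ∨ N ≤ j + K then j else 2 * K

open Classical in
lemma card_edges_ge {N n k : ℕ} (hN : 4 * (k + 1) ≤ N) (hn : n ≤ N) :
    ∑ j ∈ Finset.range n, g N (k + 1) j ≤
      (visGraph k (fam N (k + 1) n (by omega) hN hn)).edgeSet.ncard := by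
  set K := k + 1 with hKdef
  set T : Finset (Fin n × Fin n) := univ.filter (fun p => p.1 < p.2 ∧ Q N K p.1 p.2) with hT
  have h1 : T.card ≤ (visGraph k (fam N K n (by omega) hN hn)).edgeSet.ncard := by
    rw [← Set.ncard_coe_finset]
    apply Set.ncard_le_ncard_of_injOn (fun p => s(p.1, p.2))
    · intro p hp
      rw [mem_coe, hT, mem_filter] at hp
      show s(p.1, p.2) ∈ _
      rw [SimpleGraph.mem_edgeSet]
      exact ⟨hp.2.1.ne, sees_of_Q hN hn p.1 p.2 hp.2.1 hp.2.2⟩
    · intro p hp q hq hpq
      rw [mem_coe, hT, mem_filter] at hp hq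
      simp only [Sym2.eq, Sym2.rel_iff', Prod.mk.injEq, Prod.swap_prod_mk] at hpq
      rcases hpq with h | h
      · exact Prod.ext h.1 h.2
      · exfalso
        have h2 := hp.2.1
        have h3 := hq.2.1
        rw [h.1, h.2] at h2
        exact absurd h2 (not_lt.2 h3.le)
  refine le_trans ?_ h1
  have h2 : T.card = ∑ j : Fin n, (univ.filter (fun i : Fin n => i < j ∧ Q N K i j)).card := by
    rw [hT, card_filter, ← univ_product_univ, sum_product_right]
    apply sum_congr rfl
    intro j _
    rw [card_filter]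
  rw [h2, ← Fin.sum_univ_eq_sum_range]
  apply sum_le_sum
  intro j _
  -- compare with explicit sets
  have h3 : (univ.filter (fun i : Fin n => i < j ∧ Q N K i j)).card =
      ((univ.filter (fun i : Fin n => i < j ∧ Q N K i j)).image (fun i : Fin n => (i : ℕ))).card := by
    rw [card_image_of_injective]
    intro a b hab
    exact Fin.ext hab
  rw [h3]
  have hmem : ∀ i : ℕ, i < (j : ℕ) → Q N K i j → i ∈
      ((univ.filter (fun i : Fin n => i < j ∧ Q N K i j)).image (fun i : Fin n => (i : ℕ))) := by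
    intro i hi hQ
    rw [mem_image]
    refine ⟨⟨i, hi.trans j.2⟩, ?_, rfl⟩
    rw [mem_filter]
    exact ⟨mem_univ _, hi, hQ⟩
  unfold g
  split_ifs with h4
  · calc (j : ℕ) = (Finset.range j).card := by simp
      _ ≤ _ := by
        apply card_le_card
        intro i hi
        rw [mem_range] at hi
        apply hmem i hi
        unfold Q
        omega
  · push Not at h4
    calc 2 * K = (Finset.range K ∪ Finset.Ico ((j : ℕ) - K) j).card := by
          rw [card_union_of_disjoint]
          · rw [card_range, Nat.card_Ico]; omega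
          · rw [disjoint_left]
            intro i hi hi'
            rw [mem_range] at hi
            rw [mem_Ico] at hi'
            omega
      _ ≤ _ := by
        apply card_le_card
        intro i hi
        rw [mem_union, mem_range, mem_Ico] at hi
        apply hmem i (by omega)
        unfold Q
        omega

lemma sum_g_small {n k : ℕ} (hn : n ≤ 4 * (k + 1)) :
    ∑ j ∈ Finset.range n, g (4 * (k + 1)) (k + 1) j = n.choose 2 := by
  rw [Nat.choose_two_right, ← Finset.sum_range_id]
  apply sum_congr rfl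
  intro j hj
  rw [mem_range] at hj
  unfold g
  rw [if_pos (by omega)]

lemma sum_g_large {n k : ℕ} (hn : 4 * (k + 1) ≤ n) :
    ∑ j ∈ Finset.range n, g n (k + 1) j = (k + 1) * (3 * n - 4 * k - 6) := by
  obtain ⟨t, rfl⟩ := Nat.exists_eq_add_of_le hn
  have e : 4 * (k + 1) + t = 3 * (k + 1) + t + (k + 1) := by ring
  have s1 : ∑ j ∈ Finset.range (4 * (k + 1) + t), g (4 * (k + 1) + t) (k + 1) j =
      ∑ j ∈ Finset.range (3 * (k + 1)), j + ∑ j ∈ Finset.range t, 2 * (k + 1) +
      ∑ j ∈ Finset.range (k + 1), (3 * (k + 1) + t + j) := by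
    conv_lhs => rw [e, sum_range_add, sum_range_add]
    congr 1
    · congr 1
      · apply sum_congr rfl
        intro j hj
        rw [mem_range] at hj
        unfold g
        rw [if_pos (by omega)]
      · apply sum_congr rfl
        intro j hj
        rw [mem_range] at hj
        unfold g
        rw [if_neg (by omega)]
    · apply sum_congr rfl
      intro j hj
      unfold g
      rw [if_pos (by omega)]
  rw [s1, sum_add_distrib, sum_const, sum_const, card_range, card_range]
  have h1 := Finset.sum_range_id_mul_two (3 * (k + 1))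
  have h2 := Finset.sum_range_id_mul_two (k + 1)
  have h3 : 3 * (k + 1) - 1 = 3 * k + 2 := by omega
  have h4 : k + 1 - 1 = k := by omega
  have h5 : 3 * (4 * (k + 1) + t) - 4 * k - 6 = 8 * k + 6 + 3 * t := by omega
  rw [h3] at h1
  rw [h4] at h2
  rw [h5]
  simp only [smul_eq_mul]
  nlinarith

theorem lower (k n : ℕ) : ∃ G : SimpleGraph (Fin n), IsBarVisibilityGraph k G ∧
    (if n ≤ 4 * k + 4 then n.choose 2 else (k + 1) * (3 * n - 4 * k - 6)) ≤ G.edgeSet.ncard := by
  split_ifs with h
  · refine ⟨visGraph k (fam (4 * (k + 1)) (k + 1) n (by omega) (le_refl _) (by omega)),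
      isBar_visGraph _ _, ?_⟩
    rw [← sum_g_small (k := k) (by omega)]
    exact card_edges_ge (le_refl _) (by omega)
  · refine ⟨visGraph k (fam n (k + 1) n (by omega) (by omega) (le_refl _)),
      isBar_visGraph _ _, ?_⟩
    rw [← sum_g_large (k := k) (by omega)]
    exact card_edges_ge (by omega) (le_refl _)

end Pool.Agent.W_MP_8df6af_co
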