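import Mathlib
import Pool.Agent.W_MP_8df6af_co.Defs
import Pool.Agent.W_MP_8df6af_co.Core

namespace Pool.Agent.W_MP_8df6af_co

open Finset

/-- type of events: position, kind (`false` = left end, `true` = right end), bar -/
abbrev EvT (n : ℕ) := ℝ ×ₗ (Bool ×ₗ Fin n)

variable {n : ℕ}

def lev (R : BarFamily (Fin n)) (v : Fin n) : EvT n := toLex (R.l v, toLex (false, v))
def rev (R : BarFamily (Fin n)) (v : Fin n) : EvT n := toLex (R.r v, toLex (true, v))

noncomputable def allEv (R : BarFamily (Fin n)) : Finset (EvT n) :=
  univ.image (lev R) ∪ univ.image (rev R)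

open Classical in
noncomputable def alive (R : BarFamily (Fin n)) (s : Finset (EvT n)) : Finset (Fin n) :=
  univ.filter (fun v => lev R v ∈ s ∧ rev R v ∉ s)

lemma lev_inj (R : BarFamily (Fin n)) {u v : Fin n} (h : lev R u = lev R v) : u = v := by
  unfold lev at h
  have h1 := toLex.injective h
  have h2 := (Prod.mk.inj h1).2
  exact (Prod.mk.inj (toLex.injective h2)).2

lemma rev_inj (R : BarFamily (Fin n)) {u v : Fin n} (h : rev R u = rev R v) : u = v := by
  unfold rev at h
  have h1 := toLex.injective h
  have h2 := (Prod.mk.inj h1).2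
  exact (Prod.mk.inj (toLex.injective h2)).2

lemma lev_ne_rev (R : BarFamily (Fin n)) (u v : Fin n) : lev R u ≠ rev R v := by
  intro h
  unfold rev lev at h
  have h1 := toLex.injective h
  have h2 := (Prod.mk.inj h1).2
  have h3 := (Prod.mk.inj (toLex.injective h2)).1
  exact absurd h3 (by simp)

lemma lev_lt_rev (R : BarFamily (Fin n)) (v : Fin n) : lev R v < rev R v := by
  unfold lev rev
  rw [Prod.Lex.toLex_lt_toLex]
  left
  exact R.l_lt_r v

lemma pos_le_of_lev_le {R : BarFamily (Fin n)} {u v : Fin n} (h : lev R u ≤ lev R v) :
    R.l u ≤ R.l v := by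
  unfold lev at h
  rw [Prod.Lex.toLex_le_toLex] at h
  rcases h with h | h
  · exact h.le
  · exact h.1.le

lemma pos_le_of_lev_le_rev {R : BarFamily (Fin n)} {u v : Fin n} (h : lev R u ≤ rev R v) :
    R.l u ≤ R.r v := by
  unfold lev rev at h
  rw [Prod.Lex.toLex_le_toLex] at h
  rcases h with h | h
  · exact h.le
  · exact h.1.le

lemma mem_bar {R : BarFamily (Fin n)} {v : Fin n} {x : ℝ} (h1 : R.l v ≤ x) (h2 : x ≤ R.r v) :
    (x, R.y v) ∈ R.bar v := by
  unfold BarFamily.bar hseg
  exact ⟨⟨h1, h2⟩, rfl⟩

lemma eq_of_y_eq {R : BarFamily (Fin n)} {u v : Fin n} {x : ℝ} (h1 : R.l v ≤ x) (h2 : x ≤ R.r v)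
    (h3 : R.l u ≤ x) (h4 : x ≤ R.r u) (h : R.y u = R.y v) : u = v := by
  by_contra hne
  have hd := R.disjoint u v hne
  rw [Set.disjoint_left] at hd
  exact hd (mem_bar h3 h4) (by rw [h]; exact mem_bar h1 h2)

lemma sweep (R : BarFamily (Fin n)) (K : ℕ) (s : Finset (EvT n)) :
    s ⊆ allEv R → (∀ a ∈ s, ∀ b ∈ allEv R, b < a → b ∈ s) →
    ∃ H, Reach R.y K (alive R s) (univ.filter (fun v => lev R v ∈ s)).card
        (univ.filter (fun v => rev R v ∈ s)).card H ∧
      ∀ D ⊆ s, (∀ a ∈ D, ∀ b ∈ s, b < a → b ∈ D) → nearC R.y K (alive R D) ⊆ H := by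
  induction s using Finset.induction_on_max with
  | empty =>
    intro _ _
    refine ⟨∅, ?_, ?_⟩
    · have h1 : alive R ∅ = ∅ := by simp [alive]
      rw [h1]
      simpa using Reach.nil (y := R.y) (K := K)
    · intro D hD _
      have : D = ∅ := by simpa using hD
      subst this
      have h1 : alive R ∅ = ∅ := by simp [alive]
      rw [h1]; simp [nearC]
  | insert a s hmax ih =>
    intro hsub hlow
    have has : a ∉ s := fun h => lt_irrefl _ (hmax a h)
    obtain ⟨H, hH, hD⟩ := ih ((subset_insert a s).trans hsub) (by
      intro c hc b hb hbc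
      have h1 := hlow c (mem_insert_of_mem hc) b hb hbc
      rw [mem_insert] at h1
      rcases h1 with h1 | h1
      · subst h1
        exact absurd (hmax c hc) (not_lt.2 hbc.le)
      · exact h1)
    have haE : a ∈ allEv R := hsub (mem_insert_self a s)
    unfold allEv at haE
    rw [mem_union, mem_image, mem_image] at haE
    rcases haE with ⟨v, -, hv⟩ | ⟨v, -, hv⟩
    · -- insertion
      have hlv : lev R v ∉ s := by rw [hv]; exact has
      have hrv : rev R v ∉ s := by
        intro h
        have h1 := hmax _ h
        rw [← hv] at h1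
        exact absurd (lev_lt_rev R v) (not_lt.2 h1.le)
      have hal : alive R (insert a s) = insert v (alive R s) := by
        ext w
        unfold alive
        simp only [mem_filter, mem_univ, true_and, mem_insert]
        rw [← hv]
        have h1 : rev R w ≠ lev R v := (lev_ne_rev R v w).symm
        by_cases hw : w = v
        · subst hw
          simp [h1, hrv]
        · have h2 : lev R w ≠ lev R v := fun h => hw (lev_inj R h)
          simp [h1, h2, hw]
      have hnal : v ∉ alive R s := by
        unfold alive
        simp [hlv]
      have hinj : Set.InjOn R.y (insert v (alive R s) : Finset (Fin n)) := by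
        rw [← hal]
        have hx : ∀ w ∈ alive R (insert a s), R.l w ≤ R.l v ∧ R.l v ≤ R.r w := by
          intro w hw
          unfold alive at hw
          simp only [mem_filter, mem_univ, true_and] at hw
          constructor
          · apply pos_le_of_lev_le
            rw [hv]
            rcases mem_insert.1 hw.1 with h | h
            · exact h.le
            · exact (hmax _ h).le
          · apply pos_le_of_lev_le_rev
            rw [hv]
            by_contra hlt
            push Not at hlt
            apply hw.2
            apply hlow a (mem_insert_self a s) _ _ hlt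
            unfold allEv
            simp
        intro u hu w hw huw
        rw [mem_coe] at hu hw
        have h1 := hx u hu
        have h2 := hx w hw
        exact eq_of_y_eq h2.1 h2.2 h1.1 h1.2 huw
      refine ⟨H ∪ nearC R.y K (insert v (alive R s)), ?_, ?_⟩
      · have e1 : (univ.filter (fun w => lev R w ∈ insert a s)).card
            = (univ.filter (fun w => lev R w ∈ s)).card + 1 := by
          have : univ.filter (fun w => lev R w ∈ insert a s)
              = insert v (univ.filter (fun w => lev R w ∈ s)) := by
            ext w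
            simp only [mem_filter, mem_univ, true_and, mem_insert]
            rw [← hv]
            constructor
            · rintro (h | h)
              · left; exact lev_inj R h
              · right; exact h
            · rintro (h | h)
              · left; rw [h]
              · right; exact h
          rw [this, card_insert_of_notMem]
          simp [hlv]
        have e2 : univ.filter (fun w => rev R w ∈ insert a s)
            = univ.filter (fun w => rev R w ∈ s) := by
          ext w
          simp only [mem_filter, mem_univ, true_and, mem_insert]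
          rw [← hv]
          have h1 : rev R w ≠ lev R v := (lev_ne_rev R v w).symm
          simp [h1]
        rw [e1, e2, hal]
        exact Reach.ins hH hnal hinj
      · intro D hDs hDl
        by_cases haD : a ∈ D
        · have : D = insert a s := by
            apply Subset.antisymm hDs
            intro b hb
            rcases mem_insert.1 hb with h | h
            · rw [h]; exact haD
            · exact hDl a haD b hb (hmax b h)
          rw [this, hal]
          exact subset_union_right
        · apply (hD D _ _).trans subset_union_left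
          · intro b hb
            rcases mem_insert.1 (hDs hb) with h | h
            · exact absurd (h ▸ hb) haD
            · exact h
          · intro c hc b hb hbc
            exact hDl c hc b (mem_insert_of_mem hb) hbc
    · -- deletion
      have hrv : rev R v ∉ s := by rw [hv]; exact has
      have hlv : lev R v ∈ s := by
        have h1 : lev R v ∈ insert a s := by
          apply hlow a (mem_insert_self a s)
          · unfold allEv; simp
          · rw [← hv]; exact lev_lt_rev R v
        rcases mem_insert.1 h1 with h | h
        · rw [← hv] at h; exact absurd h (lev_ne_rev R v v)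
        · exact h
      have hmem : v ∈ alive R s := by
        unfold alive; simp [hlv, hrv]
      have hal : alive R (insert a s) = (alive R s).erase v := by
        ext w
        unfold alive
        simp only [mem_filter, mem_univ, true_and, mem_insert, mem_erase]
        rw [← hv]
        have h1 : lev R w ≠ rev R v := lev_ne_rev R w v
        by_cases hw : w = v
        · subst hw
          simp
        · have h2 : rev R w ≠ rev R v := fun h => hw (rev_inj R h)
          simp [h1, h2, hw]
      refine ⟨H ∪ nearC R.y K ((alive R s).erase v), ?_, ?_⟩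
      · have e1 : (univ.filter (fun w => rev R w ∈ insert a s)).card
            = (univ.filter (fun w => rev R w ∈ s)).card + 1 := by
          have : univ.filter (fun w => rev R w ∈ insert a s)
              = insert v (univ.filter (fun w => rev R w ∈ s)) := by
            ext w
            simp only [mem_filter, mem_univ, true_and, mem_insert]
            rw [← hv]
            constructor
            · rintro (h | h)
              · left; exact rev_inj R h
              · right; exact h
            · rintro (h | h)
              · left; rw [h]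
              · right; exact h
          rw [this, card_insert_of_notMem]
          simp [hrv]
        have e2 : univ.filter (fun w => lev R w ∈ insert a s)
            = univ.filter (fun w => lev R w ∈ s) := by
          ext w
          simp only [mem_filter, mem_univ, true_and, mem_insert]
          rw [← hv]
          have h1 : lev R w ≠ rev R v := lev_ne_rev R w v
          simp [h1]
        rw [e1, e2, hal]
        exact Reach.del hH hmem
      · intro D hDs hDl
        by_cases haD : a ∈ D
        · have : D = insert a s := by
            apply Subset.antisymm hDs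
            intro b hb
            rcases mem_insert.1 hb with h | h
            · rw [h]; exact haD
            · exact hDl a haD b hb (hmax b h)
          rw [this, hal]
          exact subset_union_right
        · apply (hD D _ _).trans subset_union_left
          · intro b hb
            rcases mem_insert.1 (hDs hb) with h | h
            · exact absurd (h ▸ hb) haD
            · exact h
          · intro c hc b hb hbc
            exact hDl c hc b (mem_insert_of_mem hb) hbc

/-- all pairs (lower bar, upper bar) that see each other are in a small set -/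
lemma exists_H (R : BarFamily (Fin n)) (k : ℕ) (hn : 4 * (k + 1) ≤ n) :
    ∃ H : Finset (Fin n × Fin n), H.card + (k + 1) * (4 * (k + 1) + 2) ≤ 3 * (k + 1) * n ∧
      ∀ u v, Sees k R u v → (u, v) ∈ H ∨ (v, u) ∈ H := by
  obtain ⟨H, hH, hD⟩ := sweep R (k + 1) (allEv R) (Subset.refl _) (fun _ _ b hb _ => hb)
  have e0 : alive R (allEv R) = ∅ := by
    unfold alive allEv; simp
  have e1 : (univ.filter (fun v => lev R v ∈ allEv R)) = univ := by
    unfold allEv; simp
  have e2 : (univ.filter (fun v => rev R v ∈ allEv R)) = univ := by
    unfold allEv; simp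
  rw [e0, e1, e2, card_univ, Fintype.card_fin] at hH
  refine ⟨H, hH.final hn, ?_⟩
  -- the main geometric step
  have main : ∀ u v : Fin n, ∀ x₁ x₂ y₁ y₂ : ℝ, x₁ < x₂ → y₁ < y₂ →
      hseg x₁ x₂ y₁ ⊆ R.bar u → hseg x₁ x₂ y₂ ⊆ R.bar v →
      {w : Fin n | w ≠ u ∧ w ≠ v ∧
        (R.bar w ∩ (Set.Icc x₁ x₂ ×ˢ Set.Icc y₁ y₂)).Nonempty}.encard ≤ k → (u, v) ∈ H := by
    intro u v x₁ x₂ y₁ y₂ hx hy hu hv hk
    have hu1 : (x₁, y₁) ∈ R.bar u := hu ⟨⟨le_refl _, hx.le⟩, rfl⟩
    have hu2 : (x₂, y₁) ∈ R.bar u := hu ⟨⟨hx.le, le_refl _⟩, rfl⟩
    have hv1 : (x₁, y₂) ∈ R.bar v := hv ⟨⟨le_refl _, hx.le⟩, rfl⟩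
    have hv2 : (x₂, y₂) ∈ R.bar v := hv ⟨⟨hx.le, le_refl _⟩, rfl⟩
    unfold BarFamily.bar hseg at hu1 hu2 hv1 hv2
    simp only [Set.mem_prod, Set.mem_Icc, Set.mem_singleton_iff] at hu1 hu2 hv1 hv2
    set D := (allEv R).filter (fun e => (ofLex e).1 < x₂) with hDdef
    have hsub := hD D (filter_subset _ _) (by
      intro a ha b hb hba
      rw [hDdef, mem_filter] at ha ⊢
      refine ⟨hb, lt_of_le_of_lt ?_ ha.2⟩
      rw [Prod.Lex.lt_iff] at hba
      rcases hba with h | h
      · exact h.le
      · exact h.1.le)
    have hal : ∀ w, w ∈ alive R D ↔ R.l w < x₂ ∧ x₂ ≤ R.r w := by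
      intro w
      unfold alive
      rw [hDdef]
      unfold allEv lev rev
      simp
    apply hsub
    have hinj : Set.InjOn R.y (alive R D) := by
      intro a ha b hb hab
      rw [mem_coe, hal] at ha hb
      exact eq_of_y_eq hb.1.le hb.2 ha.1.le ha.2 hab
    rw [mem_nearC]
    have hmu : u ∈ alive R D := by
      rw [hal]; exact ⟨lt_of_le_of_lt hu1.1.1 hx, hu2.1.2⟩
    have hmv : v ∈ alive R D := by
      rw [hal]; exact ⟨lt_of_le_of_lt hv1.1.1 hx, hv2.1.2⟩
    refine ⟨hmu, hmv, ?_, Or.inl ?_⟩
    · show R.y u < R.y v
      rw [← hu1.2, ← hv1.2]; exact hy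
    · show rk R.y (alive R D) v ≤ rk R.y (alive R D) u + (k + 1)
      -- the set strictly between
      set B := (alive R D).filter (fun w => R.y u < R.y w ∧ R.y w < R.y v) with hB
      have hBk : B.card ≤ k := by
        have h1 : (B : Set (Fin n)) ⊆ {w : Fin n | w ≠ u ∧ w ≠ v ∧
            (R.bar w ∩ (Set.Icc x₁ x₂ ×ˢ Set.Icc y₁ y₂)).Nonempty} := by
          intro w hw
          rw [hB, mem_coe, mem_filter, hal] at hw
          obtain ⟨⟨h2, h3⟩, h4, h5⟩ := hw
          refine ⟨?_, ?_, ?_⟩
          · rintro rfl; exact lt_irrefl _ h4
          · rintro rfl; exact lt_irrefl _ h5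
          · refine ⟨(x₂, R.y w), mem_bar h2.le h3, ⟨hx.le, le_refl _⟩, ?_⟩
            simp only [Set.mem_Icc]
            rw [hu1.2, hv1.2]
            exact ⟨h4.le, h5.le⟩
        have h2 := (Set.encard_le_encard h1).trans hk
        rw [Set.encard_coe_eq_coe_finsetCard] at h2
        exact_mod_cast h2
      have hsub2 : (alive R D).filter (fun w => R.y w < R.y v) ⊆
          ((alive R D).filter (fun w => R.y w < R.y u)) ∪ (B ∪ {u}) := by
        intro w hw
        rw [mem_filter] at hw
        rw [mem_union, mem_union, hB, mem_filter, mem_filter, mem_singleton]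
        rcases lt_trichotomy (R.y w) (R.y u) with h | h | h
        · left; exact ⟨hw.1, h⟩
        · right; right; exact hinj (mem_coe.2 hw.1) (mem_coe.2 hmu) h
        · right; left; exact ⟨hw.1, h, hw.2⟩
      unfold rk
      calc _ ≤ _ := card_le_card hsub2
        _ ≤ _ := card_union_le _ _
        _ ≤ _ := Nat.add_le_add_left (card_union_le _ _) _
        _ ≤ _ := by simp only [card_singleton]; omega
  rintro u v ⟨x₁, x₂, y₁, y₂, hx, hy, hor, hk⟩
  rcases hor with ⟨h1, h2⟩ | ⟨h1, h2⟩
  · left
    exact main u v x₁ x₂ y₁ y₂ hx hy h1 h2 hk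
  · right
    apply main v u x₁ x₂ y₁ y₂ hx hy h1 h2
    convert hk using 4
    tauto

/-- Upper bound. -/
theorem upper (k n : ℕ) (hn : 4 * k + 4 ≤ n) (G : SimpleGraph (Fin n))
    (hG : IsBarVisibilityGraph k G) : G.edgeSet.ncard ≤ (k + 1) * (3 * n - 4 * k - 6) := by
  obtain ⟨R, hR⟩ := hG
  obtain ⟨H, hH, hS⟩ := exists_H R k (by omega)
  have h1 : G.edgeSet ⊆ ((H.image (fun p => s(p.1, p.2)) : Finset (Sym2 (Fin n))) :
      Set (Sym2 (Fin n))) := by
    intro e he
    induction e using Sym2.ind with
    | _ u v =>
      rw [SimpleGraph.mem_edgeSet] at he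
      have := (hR u v he.ne).1 he
      rw [mem_coe, mem_image]
      rcases hS u v this with h | h
      · exact ⟨(u, v), h, rfl⟩
      · exact ⟨(v, u), h, Sym2.eq_swap⟩
  have h2 : G.edgeSet.ncard ≤ H.card := by
    calc _ ≤ _ := Set.ncard_le_ncard h1 (finite_toSet _)
      _ = _ := Set.ncard_coe_finset _
      _ ≤ _ := card_image_le
  have h3 : (k + 1) * (3 * n - 4 * k - 6) + (k + 1) * (4 * (k + 1) + 2) = 3 * (k + 1) * n := by
    rw [← mul_add]
    have : 3 * n - 4 * k - 6 + (4 * (k + 1) + 2) = 3 * n := by omega
    rw [this]; ring
  omega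

end Pool.Agent.W_MP_8df6af_co
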